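import Pool.Agent.helper90.KS.Spec

/-!
# Module LBK: lower bound, assembly
-/

set_option autoImplicit false

open scoped BigOperators

namespace Pool.Agent.KS

open Pool.Agent.helper23.TH

open Classical in
theorem LBK_card_sub {V : Type} [Fintype V] (U : Finset V) (Q : V → Prop) :
    ((Finset.univ : Finset {x // x ∈ U}).filter (fun w => Q w.1)).card = (U.filter Q).card := by
  rw [← Finset.card_map (Function.Embedding.subtype _)]
  congr 1
  ext x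
  simp only [Finset.mem_map, Finset.mem_filter, Finset.mem_univ, true_and,
    Function.Embedding.subtype_apply, Subtype.exists, exists_and_left, exists_prop,
    exists_eq_right_right]
  tauto

theorem LBK_Gb_symm {V K : Type} {χ : V → V → K} {ω : V → Bool} (h : ∀ a b, χ a b = χ b a)
    (u w : V × V) (hg : Gb χ ω u w) : Gb χ ω w u := by
  obtain ⟨⟨h1, h2, h3, h4, h5, h6, h7⟩, a, b, c, d⟩ := hg
  exact ⟨⟨h2, h1, h3.symm, h5.symm, h4.symm, h6.symm, by rw [h w.1 u.1, h w.2 u.2, h7]⟩, b, a, d, c⟩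

/-- the numerical part -/
theorem LBK_num {n m : ℕ} {s C₁ c : ℝ} (hs : 1 ≤ s) (hC : 0 < C₁) (hn : 2 ≤ n) (hm : 0 < m)
    (hc1 : c ≤ 1 / 8) (hc2 : c * (128 * C₁) ≤ 1) (h : (m : ℝ) < c * (n : ℝ) ^ (1 + 1 / s)) :
    4 * (m : ℝ) ≤ n * (n - 1) ∧
      16 * (C₁ * ((n : ℝ) * n) ^ (1 + (s - 1) / (2 * s))) ≤ (n : ℝ) ^ 4 / (8 * m) := by
  have hn' : (2 : ℝ) ≤ n := by exact_mod_cast hn
  have hn0 : (0 : ℝ) < n := by linarith
  have hm' : (0 : ℝ) < m := by exact_mod_cast hm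
  have hs0 : 0 < s := by linarith
  have hp0 : 0 < (n : ℝ) ^ (1 + 1 / s) := Real.rpow_pos_of_pos hn0 _
  have hle : (n : ℝ) ^ (1 + 1 / s) ≤ (n : ℝ) ^ (2 : ℝ) := by
    apply Real.rpow_le_rpow_of_exponent_le (by linarith)
    have : 1 / s ≤ 1 := by
      rw [div_le_one hs0]
      exact hs
    linarith
  have h2 : (n : ℝ) ^ (2 : ℝ) = (n : ℝ) ^ 2 := by
    rw [show (2 : ℝ) = ((2 : ℕ) : ℝ) by norm_num, Real.rpow_natCast]
  constructor
  · have h3 : (m : ℝ) ≤ 1 / 8 * (n : ℝ) ^ 2 := by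
      calc (m : ℝ) ≤ c * (n : ℝ) ^ (1 + 1 / s) := h.le
        _ ≤ 1 / 8 * (n : ℝ) ^ (1 + 1 / s) := by gcongr
        _ ≤ 1 / 8 * (n : ℝ) ^ 2 := by rw [← h2]; gcongr
    nlinarith
  · rw [le_div_iff₀ (by positivity)]
    have e1 : ((n : ℝ) * n) ^ (1 + (s - 1) / (2 * s)) = (n : ℝ) ^ (3 - 1 / s) := by
      rw [← pow_two, ← Real.rpow_natCast (n : ℝ) 2, ← Real.rpow_mul hn0.le]
      congr 1
      push_cast
      field_simp
      ring
    have e2 : (n : ℝ) ^ (3 - 1 / s) * (n : ℝ) ^ (1 + 1 / s) = (n : ℝ) ^ 4 := by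
      rw [← Real.rpow_add hn0, ← Real.rpow_natCast (n : ℝ) 4]
      congr 1
      push_cast
      ring
    have hq0 : 0 < (n : ℝ) ^ (3 - 1 / s) := Real.rpow_pos_of_pos hn0 _
    rw [e1]
    calc 16 * (C₁ * (n : ℝ) ^ (3 - 1 / s)) * (8 * m)
        ≤ 16 * (C₁ * (n : ℝ) ^ (3 - 1 / s)) * (8 * (c * (n : ℝ) ^ (1 + 1 / s))) := by
          gcongr
      _ = c * (128 * C₁) * ((n : ℝ) ^ (3 - 1 / s) * (n : ℝ) ^ (1 + 1 / s)) := by ring
      _ = c * (128 * C₁) * (n : ℝ) ^ 4 := by rw [e2]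
      _ ≤ 1 * (n : ℝ) ^ 4 := by gcongr
      _ = (n : ℝ) ^ 4 := one_mul _

theorem LBK (hRG : RG2_stmt) (hEC : EC_stmt) (hPT : PT_stmt) (hTR : TRK_stmt) (hFB : FB_stmt) :
    LBK_stmt := by
  intro s t hs ht
  have hs' : (3 : ℝ) ≤ s := by exact_mod_cast hs
  have hs0 : (0 : ℝ) < s := by linarith
  have ha0 : 0 < ((s : ℝ) - 1) / (2 * s) := by
    apply div_pos <;> linarith
  have ha1 : ((s : ℝ) - 1) / (2 * s) ≤ 1 := by
    rw [div_le_one (by linarith)]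
    linarith
  obtain ⟨K, hK, hR⟩ := hRG (((s : ℝ) - 1) / (2 * s)) ha0 ha1
  obtain ⟨κ, hκ, hF⟩ := hFB s t K hs ht hK
  obtain ⟨C₁, hC₁, hR⟩ := hR (κ + 1) (by linarith)
  refine ⟨min (1 / 8) (1 / (128 * C₁)), by positivity, 2, ?_⟩
  intro n hn m χ hχ hT
  by_contra hcon
  rw [not_le] at hcon
  have hm : 0 < m := by
    have : Fin n := ⟨0, by omega⟩
    exact (χ this this).pos
  obtain ⟨h4, hnum⟩ := LBK_num (s := (s : ℝ)) (C₁ := C₁) (by linarith)
    hC₁ hn hm (min_le_left _ _)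
    (by
      calc min (1 / 8) (1 / (128 * C₁)) * (128 * C₁) ≤ 1 / (128 * C₁) * (128 * C₁) := by
            gcongr; exact min_le_right _ _
        _ = 1 := by field_simp) hcon
  have hE := hEC.1 n m χ hχ hn h4
  obtain ⟨ω, hω⟩ := hPT (Fin n) (Fin m) χ
  have hω' : (∑ v, (dg (Ga χ) Finset.univ v : ℝ)) ≤
      16 * ∑ v, (dg (Gb χ ω) Finset.univ v : ℝ) := by
    exact_mod_cast hω
  have hcard : (Fintype.card (Fin n × Fin n) : ℝ) = (n : ℝ) * n := by
    rw [Fintype.card_prod, Fintype.card_fin]; push_cast; ring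
  obtain ⟨U, hU, hU1, hU2⟩ := hR (Fin n × Fin n) (Gb χ ω)
    (fun u v h => LBK_Gb_symm hχ.symm u v h)
    (by rw [Fintype.card_prod, Fintype.card_fin]; positivity)
    (by rw [hcard]; linarith)
  have hdg : ∀ v : {x // x ∈ U},
      deg (fun a b : {x // x ∈ U} => Gb χ ω a.1 b.1) v = dg (Gb χ ω) U v.1 := by
    intro v
    unfold deg dg
    exact LBK_card_sub U (fun w => Gb χ ω v.1 w)
  have hsum : (∑ v : {x // x ∈ U},
      (deg (fun a b : {x // x ∈ U} => Gb χ ω a.1 b.1) v : ℝ)) =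
        ∑ v ∈ U, (dg (Gb χ ω) U v : ℝ) := by
    rw [← Finset.sum_coe_sort U]
    exact Finset.sum_congr rfl fun v _ => by rw [hdg v]
  have hcU : (Fintype.card {x // x ∈ U} : ℝ) = U.card := by
    rw [Fintype.card_coe]
  have hcpos : (0 : ℝ) < U.card := by exact_mod_cast hU.card_pos
  have hEmb : Emb (fun u w : {x // x ∈ U} => Gb χ ω u.1 w.1) (fun u => u.1.1) (fun u => u.1.2)
      s t := by
    by_contra hno
    have hb := hF {x // x ∈ U} (Fin n) (fun a b => Gb χ ω a.1 b.1) (fun u => u.1.1)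
      (fun u => u.1.2) (hTR (Fin n) (Fin m) χ ω U hχ).1
      (by rw [Fintype.card_coe]; exact hU.card_pos)
      (by
        intro v
        rw [hsum, hcU, hdg v]
        exact hU2 v.1 v.2) hno
    rw [hsum, hcU] at hb
    have hp : 0 < (U.card : ℝ) ^ (1 + ((s : ℝ) - 1) / (2 * s)) := Real.rpow_pos_of_pos hcpos _
    have := le_trans hU1 hb
    nlinarith
  exact hT ((hTR (Fin n) (Fin m) χ ω U hχ).2 s t (by omega) (by omega) hEmb)

end Pool.Agent.KS
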